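import Pool.Agent.Helper43.FV.Spec

/-!
# The divisor on the curve attached to an element of `K`
-/

namespace Pool.Agent.Helper43.FV

open Pool.Agent.Helper43.RS

section

variable {K : Type} [Field K] [Algebra ℂ K]

theorem DELTA_place_one {v : K → ℤ} (hv : IsPlace v) : v 1 = 0 := by
  have h := hv.const 1
  rwa [map_one] at h

/-- a valuation lies over at most one place, with one ramification index -/
theorem DELTA_unique {F : IntermediateField ℂ K} {v : K → ℤ} {e e' : ℤ} {w w' : Pl F}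
    (h : Over F v e w.1) (h' : Over F v e' w'.1) : e = e' ∧ w = w' := by
  obtain ⟨t, -, ht⟩ := w.2.one
  obtain ⟨t', -, ht'⟩ := w'.2.one
  have h1 : e = e' * w'.1 t := by
    rw [← h'.2 t, h.2 t, ht, mul_one]
  have h2 : e' = e * w.1 t' := by
    rw [← h.2 t', h'.2 t', ht', mul_one]
  have h3 : e = e' := by
    apply Int.dvd_antisymm (by exact h.1.le) (by exact h'.1.le)
    · exact ⟨_, h2⟩
    · exact ⟨_, h1⟩
  refine ⟨h3, Subtype.ext (funext fun f => ?_)⟩
  have h4 := h.2 f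
  rw [h'.2 f, ← h3] at h4
  exact (mul_left_cancel₀ h.1.ne' h4).symm

/-- the candidates for the multiplicity -/
def DELTA_M (X : Set (Subalgebra ℂ K)) (F : IntermediateField ℂ K) (y : K) (w : Pl F) : Set ℤ :=
  {m | ∃ v ∈ DivX X, ∃ e : ℤ, Over F v e w.1 ∧ m = v y / e}

theorem DELTA_M_finite {X : Set (Subalgebra ℂ K)}
    (hD : ∀ f : K, f ≠ 0 → {v | v ∈ DivX X ∧ v f ≠ 0}.Finite) (F : IntermediateField ℂ K)
    (y : K) (w : Pl F) : (DELTA_M X F y w).Finite := by
  obtain ⟨t, ht0, ht⟩ := w.2.one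
  have h1 := hD (t : K) (by simpa using ht0)
  apply (h1.image (fun v => v y / v (t : K))).subset
  rintro m ⟨v, hv, e, hO, rfl⟩
  have h2 : v (t : K) = e := by rw [hO.2 t, ht, mul_one]
  refine ⟨v, ⟨hv, ?_⟩, ?_⟩
  · rw [h2]
    exact hO.1.ne'
  · simp only [h2]

theorem DELTA_M_nonempty {X : Set (Subalgebra ℂ K)} {F : IntermediateField ℂ K} {y : K}
    {w : Pl F} (hw : w ∈ Hit X F) : (DELTA_M X F y w).Nonempty := by
  obtain ⟨v, hv, e, hO⟩ := hw
  exact ⟨v y / e, v, hv, e, hO, rfl⟩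

theorem DELTA_M_empty {X : Set (Subalgebra ℂ K)} {F : IntermediateField ℂ K} {y : K}
    {w : Pl F} (hw : w ∉ Hit X F) : DELTA_M X F y w = ∅ := by
  rw [Set.eq_empty_iff_forall_notMem]
  rintro m ⟨v, hv, e, hO, rfl⟩
  exact hw ⟨v, hv, e, hO⟩

theorem DELTA_M_zero {X : Set (Subalgebra ℂ K)} {F : IntermediateField ℂ K} {y : K}
    {w : Pl F} (hy : ∀ v ∈ DivX X, v y = 0) : sInf (DELTA_M X F y w) = 0 := by
  have h : DELTA_M X F y w ⊆ {0} := by
    rintro m ⟨v, hv, e, hO, rfl⟩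
    rw [hy v hv]
    simp
  rcases Set.subset_singleton_iff_eq.mp h with h | h <;> rw [h]
  · exact Int.csInf_empty
  · exact csInf_singleton 0

theorem DELTA_supp {X : Set (Subalgebra ℂ K)}
    (hD : ∀ f : K, f ≠ 0 → {v | v ∈ DivX X ∧ v f ≠ 0}.Finite) (F : IntermediateField ℂ K)
    (y : K) : {w : Pl F | sInf (DELTA_M X F y w) ≠ 0}.Finite := by
  by_cases hy : y = 0
  · subst hy
    apply Set.finite_empty.subset
    intro w hw
    exact hw (DELTA_M_zero fun v hv => hv.1.zero)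
  have h1 := hD y hy
  have h2 : (⋃ v ∈ {v | v ∈ DivX X ∧ v y ≠ 0}, {w : Pl F | ∃ e : ℤ, Over F v e w.1}).Finite := by
    apply h1.biUnion
    intro v _
    apply Set.Subsingleton.finite
    rintro w ⟨e, he⟩ w' ⟨e', he'⟩
    exact (DELTA_unique he he').2
  apply h2.subset
  intro w hw
  have hne : (DELTA_M X F y w).Nonempty := by
    rw [Set.nonempty_iff_ne_empty]
    intro h
    apply hw
    rw [h]
    exact Int.csInf_empty
  have h3 : sInf (DELTA_M X F y w) ∈ DELTA_M X F y w :=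
    hne.csInf_mem (DELTA_M_finite hD F y w)
  obtain ⟨v, hv, e, hO, h4⟩ := h3
  simp only [Set.mem_iUnion]
  refine ⟨v, ⟨hv, ?_⟩, e, hO⟩
  intro h5
  apply hw
  rw [h4, h5]
  simp

theorem DELTA_add {X : Set (Subalgebra ℂ K)}
    (hD : ∀ f : K, f ≠ 0 → {v | v ∈ DivX X ∧ v f ≠ 0}.Finite) (F : IntermediateField ℂ K)
    {y : K} (hy : y ≠ 0) {u : F} (hu : u ≠ 0) {w : Pl F} (hw : w ∈ Hit X F) :
    sInf (DELTA_M X F (u * y) w) = sInf (DELTA_M X F y w) + w.1 u := by
  have key : ∀ (v : K → ℤ), v ∈ DivX X → ∀ e : ℤ, Over F v e w.1 →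
      v (u * y) / e = v y / e + w.1 u := by
    intro v hv e hO
    rw [hv.1.mul _ _ (by simpa using hu) hy, hO.2 u, add_comm, Int.add_mul_ediv_left _ _ hO.1.ne']
  have hset : DELTA_M X F (u * y) w = (fun m => m + w.1 u) '' DELTA_M X F y w := by
    ext m
    constructor
    · rintro ⟨v, hv, e, hO, rfl⟩
      exact ⟨v y / e, ⟨v, hv, e, hO, rfl⟩, (key v hv e hO).symm⟩
    · rintro ⟨m', ⟨v, hv, e, hO, rfl⟩, rfl⟩
      exact ⟨v, hv, e, hO, (key v hv e hO).symm⟩
  have hne : (DELTA_M X F y w).Nonempty := DELTA_M_nonempty hw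
  have hfin := DELTA_M_finite hD F y w
  rw [hset]
  apply le_antisymm
  · apply csInf_le (hfin.image _).bddBelow
    exact ⟨_, hne.csInf_mem hfin, rfl⟩
  · apply le_csInf (hne.image _)
    rintro _ ⟨m, hm, rfl⟩
    have := csInf_le hfin.bddBelow hm
    simpa using this

theorem DELTA_pres_symm {X : Set (Subalgebra ℂ K)} {a : K ≃ₐ[ℂ] K} (ha : Pres X a) :
    Pres X a.symm := by
  obtain ⟨h1, h2⟩ := ha
  constructor
  · intro O' hO'
    obtain ⟨O, hO, h⟩ := h2 O' hO'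
    refine ⟨O, hO, fun f => ?_⟩
    rw [h (a.symm f), AlgEquiv.apply_symm_apply]
  · intro O hO
    obtain ⟨O', hO', h⟩ := h1 O hO
    refine ⟨O', hO', fun f => ?_⟩
    rw [h (a.symm f), AlgEquiv.apply_symm_apply]

theorem DELTA_divX {X : Set (Subalgebra ℂ K)} {a : K ≃ₐ[ℂ] K} (ha : Pres X a) {v : K → ℤ}
    (hv : v ∈ DivX X) : (fun f => v (a.symm f)) ∈ DivX X := by
  obtain ⟨hp, O, hO, h1, h2⟩ := hv
  obtain ⟨O', hO', h3⟩ := ha.1 O hO
  refine ⟨isPlace_comp hp a, O', hO', ?_, ?_⟩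
  · intro p hp'
    apply h1
    rw [h3, AlgEquiv.apply_symm_apply]
    exact hp'
  · intro f hf
    obtain ⟨p, hp', q, hq, hq0, hvq, hfq⟩ := h2 (a.symm f) hf
    refine ⟨a p, (h3 p).mp hp', a q, (h3 q).mp hq, by simpa using hq0, by simpa using hvq, ?_⟩
    rw [← hfq, map_mul, AlgEquiv.apply_symm_apply]

theorem DELTA_M_le {X : Set (Subalgebra ℂ K)} {F : IntermediateField ℂ K} {a : K ≃ₐ[ℂ] K}
    (ha : Pres X a) {b : F ≃ₐ[ℂ] F} (hb : ResTo F a b) (y : K) (w : Pl F) :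
    DELTA_M X F y w ⊆ DELTA_M X F (a y) (actPl b w) := by
  rintro m ⟨v, hv, e, hO, rfl⟩
  refine ⟨fun f => v (a.symm f), DELTA_divX ha hv, e, ⟨hO.1, ?_⟩, by simp⟩
  intro f
  have h1 : a.symm (f : K) = ((b.symm f : F) : K) := by
    rw [AlgEquiv.symm_apply_eq, ← hb (b.symm f), AlgEquiv.apply_symm_apply]
  simp only [h1]
  exact hO.2 (b.symm f)

theorem DELTA_M_eq {X : Set (Subalgebra ℂ K)} {F : IntermediateField ℂ K} {a : K ≃ₐ[ℂ] K}
    (ha : Pres X a) {b : F ≃ₐ[ℂ] F} (hb : ResTo F a b) (y : K) (w : Pl F) :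
    DELTA_M X F (a y) (actPl b w) = DELTA_M X F y w := by
  apply Set.Subset.antisymm _ (DELTA_M_le ha hb y w)
  have hb' : ResTo F a.symm b.symm := by
    intro f
    rw [eq_comm, AlgEquiv.symm_apply_eq, ← hb (b.symm f), AlgEquiv.apply_symm_apply]
  have h := DELTA_M_le (DELTA_pres_symm ha) hb' (a y) (actPl b w)
  rw [AlgEquiv.symm_apply_apply] at h
  have hw : actPl b.symm (actPl b w) = w := by
    apply Subtype.ext
    funext f
    change w.1 (b.symm (b.symm.symm f)) = w.1 f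
    rw [AlgEquiv.symm_symm, AlgEquiv.symm_apply_apply]
  rwa [hw] at h

end

theorem st_DELTA (hD1 : ST_D1) : ST_DELTA := by
  intro K _ _ X hX F _
  have hD := hD1 K X hX
  refine ⟨fun y => Finsupp.onFinset (DELTA_supp hD F y).toFinset
    (fun w => sInf (DELTA_M X F y w)) (fun w hw => by simpa using hw), ?_, ?_, ?_, ?_⟩
  · ext w
    simp only [Finsupp.onFinset_apply, Finsupp.coe_zero, Pi.zero_apply]
    exact DELTA_M_zero fun v hv => DELTA_place_one hv.1
  · intro y _ w hw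
    simp only [Finsupp.onFinset_apply]
    rw [DELTA_M_empty hw]
    exact Int.csInf_empty
  · intro y hy u hu w hw
    simp only [Finsupp.onFinset_apply]
    exact DELTA_add hD F hy hu hw
  · intro a ha b hb y _ w
    simp only [Finsupp.onFinset_apply]
    rw [DELTA_M_eq ha hb y w]

end Pool.Agent.Helper43.FV
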